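import Mathlib
import Pool.Agent.Work.MP_8ff565_lc.Main
import Pool.Agent.Work.MP_8ff565_lc.NPmem

open Pool.Agent.Work.MP_8ff565_lc

/-- `MAP_3`, global flat-foldability of a `3 x n` map with a given mountain-valley assignment, is
NP-complete: it is in NP, and every language in NP reduces to it by a polynomial-time many-one
reduction. -/
theorem Pool.Agent.Results.MP_8ff565_lc.MapFoldingNPC.result :
    map3 ∈ N68a2faeb.NP ∧
    ∀ L ∈ N68a2faeb.NP, ∃ f : List Bool → List Bool, N68a2faeb.IsPolyTime f ∧
      ∀ x : List Bool, L x = map3 (f x) :=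
  ⟨map3_mem_NP, hard⟩
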